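import Pool.Agent.H484.AL.Stm

namespace Pool.Agent.H484.AL.CYL

open Finset Pool.Agent.H484.AL

/-- `q y - p M` -/
def X (M y : ℕ) (w : List ℕ) : ℤ := ((qq w).1 : ℤ) * y - (pp w).1 * M
/-- `q' y - p' M` -/
def X' (M y : ℕ) (w : List ℕ) : ℤ := ((qq w).2 : ℤ) * y - (pp w).2 * M

theorem X_cons (M y c : ℕ) (w : List ℕ) : X M y (c :: w) = c * X M y w + X' M y w := by
  simp only [X, X', qq, pp]; push_cast; ring

theorem X'_cons (M y c : ℕ) (w : List ℕ) : X' M y (c :: w) = X M y w := by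
  simp only [X, X', qq, pp]

theorem abs_eq (M y : ℕ) (w : List ℕ) (hw : ∀ c ∈ w, 1 ≤ c) (θ : ℝ) (h0 : 0 < θ)
    (h : (X M y w : ℝ) + θ * (X' M y w : ℝ) = 0) :
    |(X' M y w : ℝ)| * (((qq w).1 : ℝ) + ((qq w).2 : ℝ) * θ) = (M : ℝ) := by
  have hd := det_pq w
  have hq := qq_pos w hw
  have hd' : ((((pp w).1 : ℝ)) * (qq w).2 - (pp w).2 * (qq w).1) ^ 2 = 1 := by exact_mod_cast hd
  have e1 : (X M y w : ℝ) * ((qq w).2 : ℝ) - (X' M y w : ℝ) * ((qq w).1 : ℝ)
      = -(M : ℝ) * (((pp w).1 : ℝ) * (qq w).2 - (pp w).2 * (qq w).1) := by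
    simp only [X, X']; push_cast; ring
  have e2 : (X' M y w : ℝ) * (((qq w).1 : ℝ) + ((qq w).2 : ℝ) * θ)
      = (M : ℝ) * (((pp w).1 : ℝ) * (qq w).2 - (pp w).2 * (qq w).1) := by
    have : (X M y w : ℝ) = - θ * (X' M y w : ℝ) := by linarith
    rw [this] at e1
    linarith
  have e3 : |((((pp w).1 : ℝ)) * (qq w).2 - (pp w).2 * (qq w).1)| = 1 := by
    have h2 := hd'
    rw [← sq_abs] at h2
    nlinarith [abs_nonneg ((((pp w).1 : ℝ)) * (qq w).2 - (pp w).2 * (qq w).1)]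
  have hpos : 0 < ((qq w).1 : ℝ) + ((qq w).2 : ℝ) * θ := by
    have : (1 : ℝ) ≤ ((qq w).1 : ℝ) := by exact_mod_cast hq
    positivity
  calc |(X' M y w : ℝ)| * (((qq w).1 : ℝ) + ((qq w).2 : ℝ) * θ)
      = |(X' M y w : ℝ) * (((qq w).1 : ℝ) + ((qq w).2 : ℝ) * θ)| := by
        rw [abs_mul, abs_of_pos hpos]
    _ = (M : ℝ) := by rw [e2, abs_mul, e3, mul_one, abs_of_nonneg (by positivity)]

/-- the vector of a word -/
def kv (g M y : ℕ) (w : List ℕ) : Fin 2 → ℤ := ![X M y w, (g : ℤ) * ((qq w).1 : ℤ)]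

theorem FF_cons (c0 H c : ℕ) (w : List ℕ) :
    FF c0 H (c :: w) = (if c0 ≤ c ∧ c ≤ H then c else 0) + FF c0 H w := by
  simp [FF]

theorem dual_kv (g M a0 y : ℕ) (α b : Fin 1 → ℕ) (w : List ℕ)
    (h : M ∣ a0 * y + α 0 + g * b 0) :
    Dual 2 (g * M) (vec 1 g a0 α b) (kv g M y w) := by
  obtain ⟨t, ht⟩ := h
  have ht' : ((a0 : ℤ) * y + α 0 + g * b 0) = M * t := by exact_mod_cast ht
  unfold Dual
  rw [Fin.sum_univ_two]
  simp only [vec, kv, Fin.cons_zero, Matrix.cons_val_zero, Matrix.cons_val_one, X]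
  have h1 : (Fin.cons (g * a0) (fun i => α i + g * b i) : Fin 2 → ℕ) 1 = α 0 + g * b 0 := by
    rfl
  rw [h1]
  refine ⟨((qq w).1 : ℤ) * t - a0 * (pp w).1, ?_⟩
  push_cast
  have : (g : ℤ) * a0 * (((qq w).1 : ℤ) * y - (pp w).1 * M) + (α 0 + g * b 0) * (g * (qq w).1)
      = g * ((qq w).1 * ((a0 : ℤ) * y + α 0 + g * b 0) - a0 * (pp w).1 * M) := by ring
  rw [this, ht']
  ring

theorem main (R c0 H g M a0 y : ℕ) (α b : Fin 1 → ℕ) (hR : R ≤ c0) (h8 : 8 ≤ c0)
    (hg : 1 ≤ g) (hM : 1 ≤ M) (hdiv : M ∣ a0 * y + α 0 + g * b 0) :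
    ∀ (w : List ℕ), (∀ c ∈ w, 1 ≤ c) → 8 * (qq w).1 ≤ M → ∀ θ : ℝ, 0 < θ → θ < 1 →
      (X M y w : ℝ) + θ * (X' M y w : ℝ) = 0 →
      ∃ K : Finset (Fin 2 → ℤ), GoodSet 2 R (g * M) (vec 1 g a0 α b) K ∧
        (FF c0 H w : ℝ) ≤ wt 2 (g * M) K ∧
        ∀ k ∈ K, |X' M y w| ≤ |k 0| ∧ (c0 : ℤ) * |k 1| ≤ (g : ℤ) * ((qq w).1 : ℤ) := by
  intro w
  induction w with
  | nil =>
    intro _ _ θ _ _ _
    refine ⟨∅, ⟨by simp, by simp [Sep]⟩, by simp [FF, wt], by simp⟩
  | cons c v ih =>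
    intro hw hq θ h0 h1 hθ
    have hc1 : 1 ≤ c := hw c (by simp)
    have hv : ∀ c ∈ v, 1 ≤ c := fun x hx => hw x (by simp [hx])
    have hqv : 1 ≤ (qq v).1 := qq_pos v hv
    have hqle : (qq v).1 ≤ (qq (c :: v)).1 := by
      simp only [qq]; nlinarith
    have hcle : c ≤ (qq (c :: v)).1 := by
      simp only [qq]; nlinarith
    have hcR : (1 : ℝ) ≤ (c : ℝ) := by exact_mod_cast hc1
    have hcθ : 0 < (c : ℝ) + θ := by linarith
    have hX' : (X' M y v : ℝ) = -((c : ℝ) + θ) * (X M y v : ℝ) := by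
      rw [X_cons, X'_cons] at hθ
      push_cast at hθ
      linarith
    have hθv : (X M y v : ℝ) + (1 / ((c : ℝ) + θ)) * (X' M y v : ℝ) = 0 := by
      rw [hX']; field_simp; ring
    have hθ0 : 0 < 1 / ((c : ℝ) + θ) := by positivity
    have hθ1 : 1 / ((c : ℝ) + θ) < 1 := by
      rw [div_lt_one hcθ]; linarith
    obtain ⟨K, hK, hF, hI⟩ := ih hv (by omega) _ hθ0 hθ1 hθv
    -- abs relations
    have habs' : |(X' M y v : ℝ)| = ((c : ℝ) + θ) * |(X M y v : ℝ)| := by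
      rw [hX', abs_mul, abs_neg, abs_of_pos hcθ]
    have hXc : (c : ℤ) * |X M y v| ≤ |X' M y v| := by
      have : (c : ℝ) * |(X M y v : ℝ)| ≤ |(X' M y v : ℝ)| := by
        rw [habs']; nlinarith [abs_nonneg (X M y v : ℝ)]
      exact_mod_cast this
    have hXle : |X M y v| ≤ |X' M y v| := by
      have : (1 : ℤ) ≤ (c : ℤ) := by exact_mod_cast hc1
      nlinarith [abs_nonneg (X M y v)]
    have hMeq := abs_eq M y (c :: v) hw θ h0 hθ
    rw [X'_cons] at hMeq
    by_cases hcc : c0 ≤ c ∧ c ≤ H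
    · -- add the vector
      have hMpos : (0 : ℝ) < (M : ℝ) := by exact_mod_cast hM
      have hgpos : (0 : ℝ) < (g : ℝ) := by exact_mod_cast hg
      have hqvpos : (0 : ℝ) < ((qq v).1 : ℝ) := by exact_mod_cast hqv
      have hXne : X M y v ≠ 0 := by
        intro hz
        rw [hz, Int.cast_zero, abs_zero, zero_mul] at hMeq
        linarith
      have hXpos : 0 < |(X M y v : ℝ)| := by
        have : (X M y v : ℝ) ≠ 0 := by exact_mod_cast hXne
        positivity
      have hMge : |(X M y v : ℝ)| * ((qq (c :: v)).1 : ℝ) ≤ (M : ℝ) := by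
        rw [← hMeq]
        have : (0 : ℝ) ≤ ((qq (c :: v)).2 : ℝ) * θ := by positivity
        nlinarith
      have h8X : 8 * |X M y v| ≤ (M : ℤ) := by
        have h8c : (8 : ℝ) ≤ ((qq (c :: v)).1 : ℝ) := by exact_mod_cast (by omega : 8 ≤ (qq (c :: v)).1)
        have : 8 * |(X M y v : ℝ)| ≤ (M : ℝ) := by nlinarith
        exact_mod_cast this
      have hgM : (M : ℤ) ≤ ((g * M : ℕ) : ℤ) := by
        have : M ≤ g * M := by nlinarith
        exact_mod_cast this
      have hg1 : (1 : ℤ) ≤ (g : ℤ) := by exact_mod_cast hg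
      have hqv1 : (1 : ℤ) ≤ ((qq v).1 : ℤ) := by exact_mod_cast hqv
      have hgq : (0 : ℤ) < (g : ℤ) * ((qq v).1 : ℤ) := by positivity
      have hk0 : kv g M y v 0 = X M y v := rfl
      have hk1 : kv g M y v 1 = (g : ℤ) * ((qq v).1 : ℤ) := rfl
      have hnot : kv g M y v ∉ K := by
        intro hmem
        have := (hI _ hmem).2
        rw [hk1, abs_of_pos hgq] at this
        have h8' : (8 : ℤ) ≤ (c0 : ℤ) := by exact_mod_cast h8
        nlinarith
      have hRc : (R : ℤ) ≤ (c : ℤ) := by exact_mod_cast hR.trans hcc.1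
      have hRc0 : (R : ℤ) ≤ (c0 : ℤ) := by exact_mod_cast hR
      have hsep : ∀ k ∈ K, ∀ i, (R : ℤ) * |kv g M y v i| ≤ |k i| ∨
          (R : ℤ) * |k i| ≤ |kv g M y v i| := by
        intro k hk i
        fin_cases i
        · left
          show (R : ℤ) * |kv g M y v 0| ≤ |k 0|
          rw [hk0]
          have h2 := (hI k hk).1
          nlinarith [abs_nonneg (X M y v)]
        · right
          show (R : ℤ) * |k 1| ≤ |kv g M y v 1|
          rw [hk1, abs_of_pos hgq]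
          have h2 := (hI k hk).2
          nlinarith [abs_nonneg (k 1)]
      refine ⟨insert (kv g M y v) K, ⟨?_, ?_⟩, ?_, ?_⟩
      · intro k hk
        rcases Finset.mem_insert.1 hk with rfl | hk
        · refine ⟨dual_kv g M a0 y α b v hdiv, ?_⟩
          intro i
          fin_cases i
          · show kv g M y v 0 ≠ 0 ∧ 8 * |kv g M y v 0| ≤ _
            rw [hk0]
            exact ⟨hXne, h8X.trans hgM⟩
          · show kv g M y v 1 ≠ 0 ∧ 8 * |kv g M y v 1| ≤ _
            rw [hk1, abs_of_pos hgq]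
            refine ⟨hgq.ne', ?_⟩
            have h3 : 8 * (qq v).1 ≤ M := by omega
            have h3' : 8 * ((qq v).1 : ℤ) ≤ (M : ℤ) := by exact_mod_cast h3
            push_cast
            nlinarith
        · exact hK.1 k hk
      · intro k hk k' hk' hne i
        rcases Finset.mem_insert.1 hk with rfl | hk
        · rcases Finset.mem_insert.1 hk' with rfl | hk'
          · exact absurd rfl hne
          · exact (hsep k' hk' i).symm
        · rcases Finset.mem_insert.1 hk' with rfl | hk'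
          · exact hsep k hk i
          · exact hK.2 k hk k' hk' hne i
      · rw [wt, Finset.sum_insert hnot, FF_cons, if_pos hcc]
        push_cast
        have hwt : (FF c0 H v : ℝ) ≤ ∑ x ∈ K, ((g * M : ℕ) : ℝ) / ∏ i, |(x i : ℝ)| := hF
        have hmain : (c : ℝ) ≤ ((g * M : ℕ) : ℝ) / ∏ i, |(kv g M y v i : ℝ)| := by
          rw [Fin.prod_univ_two, hk0, hk1]
          push_cast
          rw [le_div_iff₀ (by positivity), abs_of_pos (by positivity : (0 : ℝ) < (g : ℝ) * ((qq v).1 : ℝ))]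
          have h5 : (c : ℝ) * ((qq v).1 : ℝ) ≤ ((qq (c :: v)).1 : ℝ) := by
            simp only [qq]; push_cast
            have : (0 : ℝ) ≤ ((qq v).2 : ℝ) := by positivity
            linarith
          have h6 : |(X M y v : ℝ)| * ((c : ℝ) * ((qq v).1 : ℝ)) ≤ (M : ℝ) :=
            (mul_le_mul_of_nonneg_left h5 hXpos.le).trans hMge
          nlinarith
        push_cast at hwt hmain
        linarith
      · intro k hk
        rw [X'_cons]
        have hcq : (c0 : ℤ) * ((g : ℤ) * ((qq v).1 : ℤ)) ≤ (g : ℤ) * ((qq (c :: v)).1 : ℤ) := by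
          have h7 : c0 * (qq v).1 ≤ (qq (c :: v)).1 := by
            simp only [qq]
            have := Nat.mul_le_mul_right (qq v).1 hcc.1
            omega
          have h7' : (c0 : ℤ) * ((qq v).1 : ℤ) ≤ ((qq (c :: v)).1 : ℤ) := by exact_mod_cast h7
          nlinarith
        rcases Finset.mem_insert.1 hk with rfl | hk
        · rw [hk0, hk1, abs_of_pos hgq]
          exact ⟨le_rfl, hcq⟩
        · obtain ⟨ha, hb⟩ := hI k hk
          refine ⟨hXle.trans ha, hb.trans ?_⟩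
          have : ((qq v).1 : ℤ) ≤ ((qq (c :: v)).1 : ℤ) := by exact_mod_cast hqle
          nlinarith
    · refine ⟨K, hK, ?_, ?_⟩
      · rw [FF_cons, if_neg hcc, zero_add]; exact hF
      · intro k hk
        rw [X'_cons]
        obtain ⟨ha, hb⟩ := hI k hk
        refine ⟨hXle.trans ha, hb.trans ?_⟩
        have : ((qq v).1 : ℤ) ≤ ((qq (c :: v)).1 : ℤ) := by exact_mod_cast hqle
        have hg1 : (1 : ℤ) ≤ (g : ℤ) := by exact_mod_cast hg
        nlinarith

end Pool.Agent.H484.AL.CYL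

namespace Pool.Agent.H484.AL

theorem t_CYL : S_CYL := by
  intro R c0 H g M a0 y α b w hR h8 hg hM hw hq hdiv hI
  obtain ⟨θ, h0, h1, h⟩ := hI
  have hMpos : (0 : ℝ) < (M : ℝ) := by exact_mod_cast hM
  have hθ : (CYL.X M y w : ℝ) + θ * (CYL.X' M y w : ℝ) = 0 := by
    simp only [CYL.X, CYL.X']
    push_cast
    field_simp at h
    linarith
  obtain ⟨K, hK, hF, -⟩ := CYL.main R c0 H g M a0 y α b hR h8 hg hM hdiv w hw hq θ h0 h1 hθ
  exact ⟨K, hK, hF⟩

end Pool.Agent.H484.AL
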